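import Pool.Agent.L0h91.H1.Sym

/-!
# H1, job EQ7: the equation at `√-7`
-/

set_option autoImplicit false
set_option linter.unusedSectionVars false

namespace Pool.Agent.L0h91.H1

open Pool.Agent.Y698 Pool.Agent.Y698.SG Pool.Agent.L0h4.TW Pool.Agent.L0h75.H1
open Pool.Agent.L0h23.ED (kn kl kb k7 S_R2)

lemma e7_of {x : RR} {t : ZMod 7} (h : r7 x = t) : sy (-fR) x = ((quadraticChar (ZMod 7) t : ℤ) : ℂ) := by
  rw [sy_seven]
  unfold e7
  rw [h]

lemma f_neg : lg (sy (-fR) (-1)) = 1 := by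
  rw [e7_of (t := -1) (by rw [map_neg, map_one])]
  have : quadraticChar (ZMod 7) (-1) = -1 := by decide
  rw [this, Int.cast_neg, Int.cast_one, lg_neg_one]

lemma r7_aR : r7 aR = 4 := ev_aR _ _

lemma f_a : lg (sy (-fR) aR) = 0 := by
  rw [e7_of r7_aR]
  have : quadraticChar (ZMod 7) 4 = 1 := by decide
  rw [this, Int.cast_one, lg_one]

lemma f_c : lg (sy (-fR) (aR - 1)) = 1 := by
  rw [e7_of (t := 3) (by rw [map_sub, r7_aR, map_one]; decide)]
  have : quadraticChar (ZMod 7) 3 = -1 := by decide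
  rw [this, Int.cast_neg, Int.cast_one, lg_neg_one]

lemma f_two : lg (sy (-fR) 2) = 0 := by
  rw [e7_of (t := 2) (by rw [map_ofNat])]
  have : quadraticChar (ZMod 7) 2 = 1 := by decide
  rw [this, Int.cast_one, lg_one]

lemma f_neg_two : lg (sy (-fR) (-2)) = 1 := by
  rw [e7_of (t := -2) (by rw [map_neg, map_ofNat])]
  have : quadraticChar (ZMod 7) (-2) = -1 := by decide
  rw [this, Int.cast_neg, Int.cast_one, lg_neg_one]

lemma f_kap {κ : RR} {ε : ZMod 2} (h : Kap κ ε) : lg (sy (-fR) κ) = ε := by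
  rcases h with ⟨rfl, h | h⟩ | ⟨rfl, h | h⟩ <;> rw [h]
  · rw [Pool.Agent.L0h4.TD.sy_oneX prime_f, lg_one]
  · exact f_two
  · exact f_neg
  · exact f_neg_two

lemma two_f : ¬ -fR ∣ 2 := px_two D1_seven.px

/-- the symbol of the first factor at `√-7` -/
lemma gg_f (s y z : Bool) : ¬ -fR ∣ gg s false y z ∧
    lg (sy (-fR) (gg s false y z)) = b2 s + b2 z := by
  have hp := prime_f
  obtain ⟨na, nc⟩ := nd_two hp two_f
  have n1 := if_nd hp (neg_nd hp) s
  have n3 := if_nd hp na y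
  have n4 := if_nd hp nc z
  have e1 : gg s false y z = (if s then -1 else 1) * (if y then aR else 1) *
      (if z then aR - 1 else 1) := by
    unfold gg
    simp
  rw [e1]
  refine ⟨mul_nd hp (mul_nd hp n1 n3) n4, ?_⟩
  rw [lgm hp (mul_nd hp n1 n3) n4, lgm hp n1 n3, lg_if hp, lg_if hp, lg_if hp, f_neg, f_a, f_c]
  ring

theorem t_EQ7 : S_EQ7 := by
  classical
  intro Q S ϖ h κ ε hκ s e y z T hT hO
  have hp := prime_f
  have hκj := kap_nd hκ two_f
  obtain ⟨ncc, lcc⟩ := gg_f s y z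
  have hTj : ∀ (U : Finset (ℕ × Bool)), U ⊆ ix Q S → ¬ -fR ∣ ∏ i ∈ U, pfx Q ϖ i :=
    fun U hU => prod_nd hp fun i hi => nd_f' h (hU hi)
  have hval : ∀ i ∈ ix Q S, lg (sy (-fR) (pfx Q ϖ i)) = k7 (pfx Q ϖ) i + kn (pfx Q ϖ) i := by
    intro i hi
    have h1 := h.rec7 i (Finset.mem_insert_of_mem hi) (7, false) (Finset.mem_insert_self _ _)
      (fun h2 => h.ix7 (h2 ▸ hi))
    rw [pf7_o, nt_D1 D1_seven] at h1
    unfold mm at h1
    rw [pf7_o, h.pf hi] at h1
    have h3 : (if 7 % 4 = 3 then (1 : ZMod 2) else 0) = 1 := rfl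
    rw [h3, mul_one] at h1
    have h4 : ∀ a b c : ZMod 2, a + b = c → a = b + c := by decide
    exact h4 _ _ _ h1
  have hlgU : ∀ (U : Finset (ℕ × Bool)), U ⊆ ix Q S →
      lg (sy (-fR) (∏ i ∈ U, pfx Q ϖ i)) = ∑ i ∈ U, (k7 (pfx Q ϖ) i + kn (pfx Q ϖ) i) := by
    intro U hU
    rw [lgp hp fun i hi => nd_f' h (hU hi)]
    exact Finset.sum_congr rfl fun i hi => hval i (hU hi)
  have hI := hTj _ (Finset.Subset.refl (ix Q S))
  have n1 := mul_nd hp hκj hI
  have hlo := hO.lo (-fR) (κ * ∏ i ∈ ix Q S, pfx Q ϖ i) hp two_f rfl n1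
  have hT1 := hTj _ hT
  have n3 := mul_nd hp ncc hT1
  cases e
  · rcases hlo with ⟨-, h4⟩ | ⟨δ₁, h3, -⟩
    · have h5 := sqq0 hp h4 n3
      rw [lgm hp ncc hT1, hlgU _ hT, lcc] at h5
      have : b2 false = 0 := rfl
      rw [this]
      linear_combination h5
    · exact absurd ⟨δ₁, h3⟩ n3
  · have hδ : gg s true y z * ∏ i ∈ T, pfx Q ϖ i =
        -fR * (gg s false y z * ∏ i ∈ T, pfx Q ϖ i) := by
      unfold gg
      simp only [if_true, Bool.false_eq_true, if_false]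
      ring
    rcases hlo with ⟨h3, -⟩ | ⟨δ₁, h3, h4⟩
    · exact absurd (by rw [hδ]; exact Dvd.intro _ rfl) h3
    · rw [hδ] at h3
      rw [← mul_left_cancel₀ hp.ne_zero h3] at h4
      have h5 := sqq0 hp h4 (mul_nd hp n3 n1)
      rw [lgm hp n3 n1, lgm hp ncc hT1, lgm hp hκj hI, hlgU _ hT,
        hlgU _ (Finset.Subset.refl _), lcc, f_kap hκ] at h5
      have : b2 true = 1 := rfl
      rw [this]
      linear_combination h5

end Pool.Agent.L0h91.H1
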