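import Pool.Agent.L0h91.H1.Sym

/-!
# H1, job EQJ: the equations at the odd places prime to seven
-/

set_option autoImplicit false
set_option linter.unusedSectionVars false

namespace Pool.Agent.L0h91.H1

open Pool.Agent.Y698 Pool.Agent.Y698.SG Pool.Agent.L0h4.TW Pool.Agent.L0h75.H1
open Pool.Agent.L0h23.ED (kn kl kb k7 S_R2)

theorem t_EQJ : S_EQJ := by
  classical
  intro hR Q S ϖ h κ ε hκ s e y z T hT hO j hj
  have hp := pri h hj
  have h2 := two_i h hj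
  have hκj := kap_nd hκ h2
  obtain ⟨ncc, lcc⟩ := gg_j h hR s e y z hj
  have hTj : ∀ (U : Finset (ℕ × Bool)), U ⊆ ix Q S → j ∉ U → ¬ pfx Q ϖ j ∣ ∏ i ∈ U, pfx Q ϖ i :=
    fun U hU hjU => prod_nd hp fun i hi => nd_ij h (hU hi) hj (fun h0 => hjU (h0 ▸ hi))
  have hlgU : ∀ (U : Finset (ℕ × Bool)), U ⊆ ix Q S → j ∉ U →
      lg (sy (pfx Q ϖ j) (∏ i ∈ U, pfx Q ϖ i)) = ∑ i ∈ U, mr (pfx Q ϖ) i j := fun U hU hjU =>
    lgp hp fun i hi => nd_ij h (hU hi) hj (fun h0 => hjU (h0 ▸ hi))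
  have hIs : (ix Q S).erase j ⊆ ix Q S := Finset.erase_subset _ _
  have hIn : j ∉ (ix Q S).erase j := Finset.notMem_erase _ _
  have hI1 := hTj _ hIs hIn
  -- the sum over `T`
  have hsum : ∑ i ∈ (ix Q S).erase j, mr (pfx Q ϖ) i j * (if i ∈ T then 1 else 0) =
      ∑ i ∈ T.erase j, mr (pfx Q ϖ) i j := by
    have e1 : T.erase j = ((ix Q S).erase j).filter (fun i => i ∈ T) := by
      ext i
      rw [Finset.mem_erase, Finset.mem_filter, Finset.mem_erase]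
      constructor
      · rintro ⟨h1, h2⟩
        exact ⟨⟨h1, hT h2⟩, h2⟩
      · rintro ⟨⟨h1, -⟩, h2⟩
        exact ⟨h1, h2⟩
    rw [e1, Finset.sum_filter]
    refine Finset.sum_congr rfl fun i _ => ?_
    split_ifs <;> simp
  rw [hsum]
  have hm : mK Q S ϖ κ = pfx Q ϖ j * (-fR * (κ * ∏ i ∈ (ix Q S).erase j, pfx Q ϖ i)) := by
    unfold mK
    rw [← Finset.mul_prod_erase (ix Q S) _ hj]
    ring
  have n1 := mul_nd hp hκj hI1
  have n2 := mul_nd hp (nd_f h hj) n1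
  have hlo := hO.lo (pfx Q ϖ j) _ hp h2 hm n2
  by_cases hjT : j ∈ T
  · rw [if_pos hjT, one_mul]
    have hnot : j ∉ T.erase j := Finset.notMem_erase _ _
    have hTs : T.erase j ⊆ ix Q S := (Finset.erase_subset _ _).trans hT
    have hT1 := hTj _ hTs hnot
    have hδ : gg s e y z * ∏ i ∈ T, pfx Q ϖ i =
        pfx Q ϖ j * (gg s e y z * ∏ i ∈ T.erase j, pfx Q ϖ i) := by
      rw [← Finset.mul_prod_erase T _ hjT]
      ring
    rcases hlo with ⟨h3, -⟩ | ⟨δ₁, h3, h4⟩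
    · exact absurd (by rw [hδ]; exact Dvd.intro _ rfl) h3
    · rw [hδ] at h3
      rw [← mul_left_cancel₀ hp.ne_zero h3] at h4
      have n3 := mul_nd hp ncc hT1
      have h5 := sqq0 hp h4 (mul_nd hp n3 n2)
      rw [lgm hp n3 n2, lgm hp ncc hT1, lgm hp (nd_f h hj) n1, lgm hp hκj hI1,
        hlgU _ hTs hnot, hlgU _ hIs hIn, lcc] at h5
      have h7 : lg (sy (pfx Q ϖ j) (-fR)) = k7 (pfx Q ϖ) j := rfl
      rw [h7] at h5
      linear_combination h5
  · rw [if_neg hjT, zero_mul, add_zero, Finset.erase_eq_of_notMem hjT]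
    have hT1 := hTj _ hT hjT
    have n3 := mul_nd hp ncc hT1
    rcases hlo with ⟨-, h4⟩ | ⟨δ₁, h3, -⟩
    · have h5 := sqq0 hp h4 n3
      rw [lgm hp ncc hT1, hlgU _ hT hjT, lcc] at h5
      linear_combination h5
    · exact absurd ⟨δ₁, h3⟩ n3

end Pool.Agent.L0h91.H1
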