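import Pool.Agent.L0h91.H1.Sym

/-!
# H1, job FAC: factorization of the classes
-/

set_option autoImplicit false
set_option linter.unusedSectionVars false

namespace Pool.Agent.L0h91.H1

open Pool.Agent.Y698 Pool.Agent.Y698.SG Pool.Agent.L0h4.TW Pool.Agent.L0h75.H1

lemma peel {ρ δ : RR} (hρ : Prime ρ) (hδ : Squarefree δ) : ∃ (b : Bool) (δ' : RR),
    δ = (if b then ρ else 1) * δ' ∧ ¬ ρ ∣ δ' ∧ Squarefree δ' := by
  by_cases h : ρ ∣ δ
  · obtain ⟨δ', rfl⟩ := h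
    refine ⟨true, δ', by simp, ?_, hδ.squarefree_of_dvd (Dvd.intro_left _ rfl)⟩
    rintro ⟨t, rfl⟩
    exact hρ.not_isUnit (hδ ρ ⟨t, by ring⟩)
  · exact ⟨false, δ, by simp, h, hδ⟩

lemma fac_gen {ι : Type} (I : Finset ι) (π : ι → RR) (hp : ∀ i ∈ I, Prime (π i)) :
    ∀ δ : RR, Squarefree δ → (∀ ρ : RR, Prime ρ → ρ ∣ δ → ∃ i ∈ I, ρ ∣ π i) →
      ∃ (u : RR) (T : Finset ι), IsUnit u ∧ T ⊆ I ∧ δ = u * ∏ i ∈ T, π i := by
  classical
  induction I using Finset.induction_on with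
  | empty =>
    intro δ hδ h
    refine ⟨δ, ∅, ?_, Finset.Subset.refl _, by simp⟩
    by_contra hu
    obtain ⟨ρ, hρ, hd⟩ := WfDvdMonoid.exists_irreducible_factor hu hδ.ne_zero
    obtain ⟨i, hi, -⟩ := h ρ hρ.prime hd
    exact absurd hi (Finset.notMem_empty i)
  | insert i I hi ih =>
    intro δ hδ h
    obtain ⟨b, δ', h1, h2, h3⟩ := peel (hp i (Finset.mem_insert_self _ _)) hδ
    obtain ⟨u, T, hu, hT, h4⟩ := ih (fun k hk => hp k (Finset.mem_insert_of_mem hk)) δ' h3 (by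
      intro ρ hρ hd
      obtain ⟨k, hk, hk2⟩ := h ρ hρ (by rw [h1]; exact Dvd.dvd.mul_left hd _)
      rcases Finset.mem_insert.1 hk with rfl | hk
      · exfalso
        exact h2 (((hρ.dvd_prime_iff_associated (hp k (Finset.mem_insert_self _ _))).1
          hk2).symm.dvd.trans hd)
      · exact ⟨k, hk, hk2⟩)
    cases b
    · exact ⟨u, T, hu, hT.trans (Finset.subset_insert _ _), by rw [h1, h4]; simp⟩
    · refine ⟨u, insert i T, hu, Finset.insert_subset_insert _ hT, ?_⟩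
      rw [h1, h4, Finset.prod_insert (fun h => hi (hT h)), if_pos rfl]
      ring

theorem t_FAC : S_FAC := by
  classical
  intro Q S ϖ h κ δ ε hκ hO
  -- the primes of `δ`
  have key : ∀ ρ : RR, Prime ρ → ρ ∣ δ → ρ ∣ -fR ∨ ρ ∣ aR ∨ ρ ∣ aR - 1 ∨
      ∃ i ∈ ix Q S, ρ ∣ pfx Q ϖ i := by
    intro ρ hρ hd
    by_cases h2 : ρ ∣ 2
    · rw [← acR, dvd_neg] at h2
      rcases hρ.dvd_or_dvd h2 with h3 | h3
      · exact Or.inr (Or.inl h3)
      · exact Or.inr (Or.inr (Or.inl h3))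
    · by_cases h3 : ρ ∣ mK Q S ϖ κ
      · unfold mK at h3
        rcases hρ.dvd_or_dvd h3 with h4 | h4
        · exact Or.inl h4
        · rcases hρ.dvd_or_dvd h4 with h5 | h5
          · exact absurd h5 (kap_nd hκ h2)
          · obtain ⟨j, hj, h6⟩ := (Prime.dvd_finsetProd_iff hρ _).1 h5
            exact Or.inr (Or.inr (Or.inr ⟨j, hj, h6⟩))
      · exact absurd hd (hO.un ρ hρ h2 h3)
  have hpe : ∀ {x y z : RR}, Prime x → Prime y → x ∣ y → x ∣ z → y ∣ z := by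
    intro x y z hx hy hxy hxz
    exact ((hx.dvd_prime_iff_associated hy).1 hxy).symm.dvd.trans hxz
  obtain ⟨e, δ1, h1, n1, s1⟩ := peel prime_f hO.sf
  obtain ⟨y, δ2, h2, n2, s2⟩ := peel prime_a s1
  obtain ⟨z, δ3, h3, n3, s3⟩ := peel prime_c s2
  have d3 : δ3 ∣ δ2 := by rw [h3]; exact Dvd.intro_left _ rfl
  have d2 : δ2 ∣ δ1 := by rw [h2]; exact Dvd.intro_left _ rfl
  have d1 : δ1 ∣ δ := by rw [h1]; exact Dvd.intro_left _ rfl
  obtain ⟨u, T, hu, hT, h4⟩ := fac_gen (ix Q S) (pfx Q ϖ) (fun i hi => pri h hi) δ3 s3 (by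
    intro ρ hρ hd
    rcases key ρ hρ (hd.trans (d3.trans (d2.trans d1))) with h5 | h5 | h5 | h5
    · exact absurd ((hpe hρ prime_f h5 hd).trans (d3.trans d2)) n1
    · exact absurd ((hpe hρ prime_a h5 hd).trans d3) n2
    · exact absurd (hpe hρ prime_c h5 hd) n3
    · exact h5)
  obtain ⟨s, hs⟩ : ∃ s : Bool, u = if s then -1 else 1 := by
    rcases unit_R hu with h5 | h5
    · exact ⟨false, by rw [h5]; simp⟩
    · exact ⟨true, by rw [h5]; simp⟩
  refine ⟨s, e, y, z, T, hT, ?_⟩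
  unfold gg
  rw [h1, h2, h3, h4, hs]
  ring

end Pool.Agent.L0h91.H1
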