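import Pool.Agent.L0h75.H1.Stm
import Pool.Agent.L0h23.ED.Rr
import Pool.Agent.L0h4.TD.Datx
import Pool.Agent.L0h4.TA.Mat

/-!
# H1: residue symbols, written with divisibility
-/

set_option autoImplicit false
set_option linter.unusedSectionVars false

namespace Pool.Agent.L0h91.H1

open Pool.Agent.Y698 Pool.Agent.Y698.SG Pool.Agent.L0h4.TW Pool.Agent.L0h75.H1
open Pool.Agent.L0h4.TD (sy_oneX)
open Pool.Agent.L0h4.TA (nsq nsq_sy)
open Pool.Agent.L0h23.ED (kn kl kb k7 abR nR_a nR_b d12 S_R2)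
open Pool.Agent.W192.HK (sp)

lemma nd_iff {π x : RR} : x ∉ sp π ↔ ¬ π ∣ x := by rw [Ideal.mem_span_singleton]

section sym
variable {π : RR} (hπ : Prime π)
include hπ

lemma sgnd {x : RR} (hx : ¬ π ∣ x) : sy π x = 1 ∨ sy π x = -1 := sy_sgn (nd_iff.2 hx)

lemma lgm {x y : RR} (hx : ¬ π ∣ x) (hy : ¬ π ∣ y) :
    lg (sy π (x * y)) = lg (sy π x) + lg (sy π y) := by
  rw [sy_mul' hπ, lg_mul (sgnd hπ hx) (sgnd hπ hy)]

lemma mul_nd {x y : RR} (hx : ¬ π ∣ x) (hy : ¬ π ∣ y) : ¬ π ∣ x * y := fun h =>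
  (hπ.dvd_or_dvd h).elim hx hy

lemma one_nd : ¬ π ∣ 1 := fun h => hπ.not_isUnit (isUnit_of_dvd_one h)

lemma neg_nd : ¬ π ∣ -1 := fun h => one_nd hπ ((dvd_neg).1 h)

lemma if_nd {x : RR} (hx : ¬ π ∣ x) (s : Bool) : ¬ π ∣ (if s then x else 1) := by
  cases s
  · simpa using one_nd hπ
  · simpa using hx

lemma lg_if {x : RR} (s : Bool) : lg (sy π (if s then x else 1)) = b2 s * lg (sy π x) := by
  cases s
  · simp [b2, sy_oneX hπ, lg_one]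
  · simp [b2]

lemma prod_nd {ι : Type} {T : Finset ι} {f : ι → RR} (h : ∀ i ∈ T, ¬ π ∣ f i) :
    ¬ π ∣ ∏ i ∈ T, f i := by
  intro h0
  obtain ⟨j, hj, h2⟩ := (Prime.dvd_finsetProd_iff hπ _).1 h0
  exact h j hj h2

lemma lgp {ι : Type} {T : Finset ι} {f : ι → RR} (h : ∀ i ∈ T, ¬ π ∣ f i) :
    lg (sy π (∏ i ∈ T, f i)) = ∑ i ∈ T, lg (sy π (f i)) := by
  classical
  induction T using Finset.induction_on with
  | empty => rw [Finset.prod_empty, Finset.sum_empty, sy_oneX hπ, lg_one]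
  | insert i T hi ih =>
    have h1 : ∀ k ∈ T, ¬ π ∣ f k := fun k hk => h k (Finset.mem_insert_of_mem hk)
    rw [Finset.prod_insert hi, Finset.sum_insert hi, lgm hπ (h i (Finset.mem_insert_self _ _))
      (prod_nd hπ h1), ih h1]

lemma sqq0 {x : RR} (h : Sqq π x) (hx : ¬ π ∣ x) : lg (sy π x) = 0 := by
  rw [← nsq_sy (nd_iff.2 hx)]
  unfold nsq
  exact if_pos h

end sym

lemma unit_R {u : RR} (h : IsUnit u) : u = 1 ∨ u = -1 := isUnit_iff.1 h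

lemma prime_a : Prime aR := prime_of_nR Nat.prime_two (by rw [nR_a]; rfl)

lemma nR_c : nR (aR - 1) = 2 := by
  have e1 : aR - 1 = -(1 - aR) := by ring
  rw [e1, nR_neg, nR_b]

lemma prime_c : Prime (aR - 1) := prime_of_nR Nat.prime_two (by rw [nR_c]; rfl)

lemma prime_f : Prime (-fR) := D1_seven.px.pr

lemma acR : -(aR * (aR - 1)) = 2 := by linear_combination abR

/-- the odd primes are prime to the primes above two -/
lemma nd_two {x : RR} (h : Prime x) (h2 : ¬ x ∣ 2) : ¬ x ∣ aR ∧ ¬ x ∣ aR - 1 := by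
  constructor
  · intro h1
    apply h2
    rw [← acR, dvd_neg]
    exact Dvd.dvd.mul_right h1 _
  · intro h1
    apply h2
    rw [← acR, dvd_neg]
    exact Dvd.dvd.mul_left h1 _

lemma px_two {x : RR} (h : PX x) : ¬ x ∣ 2 := fun h1 =>
  h.pr.not_isUnit (h.odd.isUnit_of_dvd' h1 dvd_rfl)

lemma kap_cases {κ : RR} {ε : ZMod 2} (h : Kap κ ε) : κ ∣ 2 := by
  rcases h with ⟨-, h | h⟩ | ⟨-, h | h⟩ <;> rw [h]
  · exact one_dvd _
  · rw [neg_dvd]; exact one_dvd _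
  · rw [neg_dvd]

lemma kap_nd {κ : RR} {ε : ZMod 2} (h : Kap κ ε) {x : RR} (h2 : ¬ x ∣ 2) : ¬ x ∣ κ :=
  fun h1 => h2 (h1.trans (kap_cases h))

section fam
variable {Q S : Finset ℕ} {ϖ : ℕ → RR} (h : Dt Q S ϖ)
include h

lemma pri {i : ℕ × Bool} (hi : i ∈ ix Q S) : Prime (pfx Q ϖ i) := (h.fx.pd i hi).pr

lemma two_i {i : ℕ × Bool} (hi : i ∈ ix Q S) : ¬ pfx Q ϖ i ∣ 2 := px_two (h.fx.pd i hi)

lemma nd_ij {i j : ℕ × Bool} (hi : i ∈ ix Q S) (hj : j ∈ ix Q S) (hij : i ≠ j) :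
    ¬ pfx Q ϖ j ∣ pfx Q ϖ i := nd_iff.1 (h.fx.ne i hi j hj hij)

lemma nd_f {j : ℕ × Bool} (hj : j ∈ ix Q S) : ¬ pfx Q ϖ j ∣ -fR := by
  have h1 := h.ne (Finset.mem_insert_self (7, false) (ix Q S)) (Finset.mem_insert_of_mem hj)
    (fun h2 => h.ix7 (h2 ▸ hj))
  rw [pf7_o, h.pf hj] at h1
  exact nd_iff.1 h1

lemma nd_f' {j : ℕ × Bool} (hj : j ∈ ix Q S) : ¬ -fR ∣ pfx Q ϖ j := by
  have h1 := h.ne (Finset.mem_insert_of_mem hj) (Finset.mem_insert_self (7, false) (ix Q S))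
    (fun h2 => h.ix7 (h2 ▸ hj))
  rw [pf7_o, h.pf hj] at h1
  exact nd_iff.1 h1

/-- the symbol of the first factor at the places of the family -/
lemma gg_j (hR : S_R2) (s e y z : Bool) {j : ℕ × Bool} (hj : j ∈ ix Q S) :
    ¬ pfx Q ϖ j ∣ gg s e y z ∧ lg (sy (pfx Q ϖ j) (gg s e y z)) =
      b2 s * kn (pfx Q ϖ) j + b2 e * k7 (pfx Q ϖ) j + b2 y * lg (sy (pfx Q ϖ j) aR) +
        b2 z * kb (pfx Q ϖ) j := by
  have hp := pri h hj
  obtain ⟨na, nc⟩ := nd_two hp (two_i h hj)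
  have n1 := if_nd hp (neg_nd hp) s
  have n2 := if_nd hp (nd_f h hj) e
  have n3 := if_nd hp na y
  have n4 := if_nd hp nc z
  unfold gg
  refine ⟨mul_nd hp (mul_nd hp (mul_nd hp n1 n2) n3) n4, ?_⟩
  rw [lgm hp (mul_nd hp (mul_nd hp n1 n2) n3) n4, lgm hp (mul_nd hp n1 n2) n3, lgm hp n1 n2,
    lg_if hp, lg_if hp, lg_if hp, lg_if hp, hR.sy_b _ _ (d12 h hj)]
  rfl

end fam

end Pool.Agent.L0h91.H1
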